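import Mathlib

/-!
# Sums of logarithms over roots of unity
-/

set_option autoImplicit false

open Finset Polynomial

namespace Pool.Agent.W666.DM

/-- the `m`-th roots of unity in `ℂ` -/
noncomputable def mu (m : ℕ) : Finset ℂ := nthRootsFinset m (1 : ℂ)

lemma mem_mu {m : ℕ} (hm : 0 < m) {ξ : ℂ} : ξ ∈ mu m ↔ ξ ^ m = 1 := mem_nthRootsFinset hm 1

lemma mu_one : mu 1 = {1} := by
  ext ξ
  rw [mem_mu one_pos, pow_one, Finset.mem_singleton]

lemma card_mu {m : ℕ} (hm : 0 < m) : (mu m).card = m :=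
  (Complex.isPrimitiveRoot_exp m hm.ne').card_nthRootsFinset

lemma norm_mu {m : ℕ} (hm : 0 < m) {ξ : ℂ} (hξ : ξ ∈ mu m) : ‖ξ‖ = 1 := by
  have h := (mem_mu hm).mp hξ
  exact Complex.norm_eq_one_of_pow_eq_one h hm.ne'

lemma ne_zero_mu {m : ℕ} (hm : 0 < m) {ξ : ℂ} (hξ : ξ ∈ mu m) : ξ ≠ 0 := by
  rw [← norm_ne_zero_iff, norm_mu hm hξ]; norm_num

lemma prod_mu {m : ℕ} (hm : 0 < m) (x y : ℂ) : ∏ ξ ∈ mu m, (x - ξ * y) = x ^ m - y ^ m :=
  ((Complex.isPrimitiveRoot_exp m hm.ne').pow_sub_pow_eq_prod_sub_mul x y hm).symm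

lemma sum_log_mu {m : ℕ} (hm : 0 < m) (x y : ℂ) (h : x ^ m ≠ y ^ m) :
    ∑ ξ ∈ mu m, Real.log ‖x - ξ * y‖ = Real.log ‖x ^ m - y ^ m‖ := by
  rw [← prod_mu hm, norm_prod, Real.log_prod]
  intro ξ hξ h0
  rw [norm_eq_zero] at h0
  have h1 := prod_mu hm x y
  rw [Finset.prod_eq_zero hξ h0] at h1
  exact h (sub_eq_zero.mp h1.symm)

/-- the product of `1 - ξ` over the nontrivial roots of unity -/
lemma prod_one_sub {m : ℕ} (hm : 0 < m) : ∏ ξ ∈ (mu m).erase 1, (1 - ξ) = m := by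
  have h1 : (X ^ m - 1 : ℂ[X]) = ∏ ξ ∈ mu m, (X - C ξ) :=
    X_pow_sub_one_eq_prod hm (Complex.isPrimitiveRoot_exp m hm.ne')
  have hmem : (1 : ℂ) ∈ mu m := (mem_mu hm).mpr (one_pow m)
  rw [← Finset.mul_prod_erase _ _ hmem] at h1
  have h2 := congrArg (fun P => eval 1 (derivative P)) h1
  simp only [derivative_sub, derivative_X_pow, derivative_one, sub_zero, derivative_mul,
    derivative_X_sub_C, eval_add, eval_mul, eval_sub, eval_X, eval_C, sub_self, zero_mul, add_zero,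
    one_mul, eval_natCast, eval_pow, one_pow, mul_one, eval_prod] at h2
  rw [h2]
  simp

lemma sum_log_mu_self {m : ℕ} (hm : 0 < m) (x : ℂ) (hx : x ≠ 0) :
    ∑ ξ ∈ mu m, Real.log ‖x - ξ * x‖ = Real.log m + (m - 1) * Real.log ‖x‖ := by
  have hmem : (1 : ℂ) ∈ mu m := (mem_mu hm).mpr (one_pow m)
  rw [← Finset.add_sum_erase _ _ hmem, one_mul, sub_self, norm_zero, Real.log_zero, zero_add]
  have h1 : ∀ ξ ∈ (mu m).erase 1, Real.log ‖x - ξ * x‖ = Real.log ‖1 - ξ‖ + Real.log ‖x‖ := by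
    intro ξ hξ
    have hne : 1 - ξ ≠ 0 := sub_ne_zero.mpr (Finset.ne_of_mem_erase hξ).symm
    rw [show x - ξ * x = (1 - ξ) * x by ring, norm_mul,
      Real.log_mul (norm_ne_zero_iff.mpr hne) (norm_ne_zero_iff.mpr hx)]
  rw [Finset.sum_congr rfl h1, Finset.sum_add_distrib, Finset.sum_const, Finset.card_erase_of_mem hmem,
    card_mu hm, nsmul_eq_mul, Nat.cast_sub hm, Nat.cast_one]
  congr 1
  rw [← Real.log_prod, ← norm_prod, prod_one_sub hm, Complex.norm_natCast]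
  intro ξ hξ h
  rw [norm_eq_zero, sub_eq_zero] at h
  exact (Finset.ne_of_mem_erase hξ) h.symm

lemma sum_log_mu_self' {m : ℕ} (hm : 0 < m) (x y : ℂ) (hx : x ≠ 0) (hxy : x ^ m = y ^ m) :
    ∑ ξ ∈ mu m, Real.log ‖x - ξ * y‖ = Real.log m + (m - 1) * Real.log ‖x‖ := by
  have hy : y ≠ 0 := by
    rintro rfl
    rw [zero_pow hm.ne'] at hxy
    exact hx (pow_eq_zero_iff hm.ne' |>.mp hxy)
  rw [← sum_log_mu_self hm x hx]
  -- substitute ξ ↦ ξ * (x / y)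
  have hη : (x / y) ^ m = 1 := by rw [div_pow, hxy, div_self (pow_ne_zero _ hy)]
  refine Finset.sum_nbij' (fun ξ => ξ * (y / x)) (fun ξ => ξ * (x / y)) ?_ ?_ ?_ ?_ ?_
  · intro ξ hξ
    rw [mem_mu hm] at hξ ⊢
    rw [mul_pow, hξ, one_mul, div_pow, hxy, div_self (pow_ne_zero _ hy)]
  · intro ξ hξ
    rw [mem_mu hm] at hξ ⊢
    rw [mul_pow, hξ, one_mul, hη]
  · intro ξ _
    field_simp
  · intro ξ _
    field_simp
  · intro ξ _
    congr 2
    field_simp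

/-- raising to a power prime to `m` permutes the `m`-th roots of unity -/
lemma sum_mu_pow {m k : ℕ} (hm : 0 < m) (hmk : Nat.Coprime m k) (F : ℂ → ℝ) :
    ∑ ξ ∈ mu m, F (ξ ^ k) = ∑ ξ ∈ mu m, F ξ := by
  have hmaps : Set.MapsTo (fun ξ : ℂ => ξ ^ k) (mu m) (mu m) := by
    intro ξ hξ
    rw [Finset.mem_coe, mem_mu hm] at hξ ⊢
    rw [← pow_mul, mul_comm, pow_mul, hξ, one_pow]
  have hinj : Set.InjOn (fun ξ : ℂ => ξ ^ k) (mu m) := by
    intro ξ hξ η hη h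
    rw [Finset.mem_coe] at hξ hη
    have h0 := ne_zero_mu hm hη
    have h1 : (ξ / η) ^ m = 1 := by
      rw [div_pow, (mem_mu hm).mp hξ, (mem_mu hm).mp hη, div_one]
    have h2 : (ξ / η) ^ k = 1 := by
      have h' : ξ ^ k = η ^ k := h
      rw [div_pow, h', div_self (pow_ne_zero _ h0)]
    have h3 : (ξ / η) ^ (Nat.gcd m k) = 1 := by
      apply orderOf_dvd_iff_pow_eq_one.mp
      exact Nat.dvd_gcd (orderOf_dvd_of_pow_eq_one h1) (orderOf_dvd_of_pow_eq_one h2)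
    rw [hmk, pow_one] at h3
    exact (div_eq_one_iff_eq h0).mp h3
  have hsurj := Finset.surjOn_of_injOn_of_card_le (fun ξ : ℂ => ξ ^ k) hmaps hinj le_rfl
  exact Finset.sum_nbij (fun ξ => ξ ^ k) hmaps hinj hsurj (fun _ _ => rfl)

end Pool.Agent.W666.DM
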