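import Mathlib
import Pool.Agent.W666.DM.Roots
import Pool.Agent.W666.DL.Ineq

/-!
# Energies of families of roots of conjugates
-/

set_option autoImplicit false

open Finset Polynomial Module IntermediateField

namespace Pool.Agent.W666.DM

open Pool.Agent.H388SL Pool.Agent.W666.DL

variable {K : Type*} [Field K] [NumberField K]

/-- reordering of a fourfold sum -/
lemma sum4 {A B C D : Type*} (a : Finset A) (b : Finset B) (c : Finset C) (e : Finset D)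
    (F : A → B → C → D → ℝ) :
    ∑ x ∈ a, ∑ y ∈ b, ∑ z ∈ c, ∑ w ∈ e, F x y z w = ∑ y ∈ b, ∑ w ∈ e, ∑ x ∈ a, ∑ z ∈ c, F x y z w := by
  rw [Finset.sum_comm]
  refine Finset.sum_congr rfl fun y _ => ?_
  have h : ∀ x ∈ a, ∑ z ∈ c, ∑ w ∈ e, F x y z w = ∑ w ∈ e, ∑ z ∈ c, F x y z w :=
    fun x _ => Finset.sum_comm
  rw [Finset.sum_congr rfl h, Finset.sum_comm]

/-- mutual energy of the families of `m`-th and `m'`-th roots -/
noncomputable def JJ (β γ : K) (m m' : ℕ) : ℝ :=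
  ∑ ξ ∈ mu m, ∑ σ : K →ₐ[ℚ] ℂ, ∑ ξ' ∈ mu m', ∑ τ : K →ₐ[ℚ] ℂ, Real.log ‖ξ * σ β - ξ' * τ γ‖

lemma JJ_cross (β γ : K) {m m' : ℕ} (hm : 0 < m) (hm' : 0 < m') (hco : Nat.Coprime m m')
    (hne : ∀ σ τ : K →ₐ[ℚ] ℂ, σ (β ^ (m * m')) ≠ τ (γ ^ (m * m'))) :
    JJ β γ m m' = II (β ^ (m * m')) (γ ^ (m * m')) := by
  unfold JJ II
  rw [sum4]
  refine Finset.sum_congr rfl fun σ _ => Finset.sum_congr rfl fun τ _ => ?_
  have hne' : (σ β ^ m') ^ m ≠ (τ γ ^ m') ^ m := by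
    have h := hne σ τ
    rw [map_pow, map_pow] at h
    rwa [← pow_mul, ← pow_mul, mul_comm m' m]
  have h1 : ∀ ξ ∈ mu m, ∑ ξ' ∈ mu m', Real.log ‖ξ * σ β - ξ' * τ γ‖ =
      Real.log ‖τ γ ^ m' - ξ ^ m' * σ β ^ m'‖ := by
    intro ξ hξ
    rw [sum_log_mu hm' (ξ * σ β) (τ γ), mul_pow, norm_sub_rev]
    intro h
    apply hne'
    rw [mul_pow] at h
    rw [← h, mul_pow, ← pow_mul ξ, mul_comm m' m, pow_mul, (mem_mu hm).mp hξ, one_pow, one_mul]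
  rw [Finset.sum_congr rfl h1, sum_mu_pow hm hco (fun ξ => Real.log ‖τ γ ^ m' - ξ * σ β ^ m'‖),
    sum_log_mu hm _ _ (fun h => hne' h.symm), norm_sub_rev]
  rw [map_pow, map_pow, ← pow_mul, ← pow_mul, mul_comm m' m]

lemma JJ_self (β : K) (hβ : β ≠ 0) (hu : NL β = 0) {m : ℕ} (hm : 0 < m) :
    JJ β β m m = m * II (β ^ m) (β ^ m) + m * (finrank ℚ K * rr (β ^ m) * Real.log m) := by
  classical
  unfold JJ
  have h0 : ∀ ξ ∈ mu m, ∀ σ : K →ₐ[ℚ] ℂ,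
      ∑ ξ' ∈ mu m, ∑ τ : K →ₐ[ℚ] ℂ, Real.log ‖ξ * σ β - ξ' * τ β‖ =
        ∑ τ : K →ₐ[ℚ] ℂ, Real.log ‖σ (β ^ m) - τ (β ^ m)‖ +
          rr (β ^ m) * (Real.log m + (m - 1) * Real.log ‖σ β‖) := by
    intro ξ hξ σ
    rw [Finset.sum_comm]
    have hx : ξ * σ β ≠ 0 := mul_ne_zero (ne_zero_mu hm hξ) ((map_ne_zero σ).mpr hβ)
    have hxm : (ξ * σ β) ^ m = σ (β ^ m) := by
      rw [mul_pow, (mem_mu hm).mp hξ, one_mul, map_pow]
    have hxn : ‖ξ * σ β‖ = ‖σ β‖ := by rw [norm_mul, norm_mu hm hξ, one_mul]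
    have h1 : ∀ τ : K →ₐ[ℚ] ℂ, ∑ ξ' ∈ mu m, Real.log ‖ξ * σ β - ξ' * τ β‖ =
        Real.log ‖σ (β ^ m) - τ (β ^ m)‖ +
          (if σ (β ^ m) = τ (β ^ m) then (1:ℝ) else 0) * (Real.log m + (m - 1) * Real.log ‖σ β‖) := by
      intro τ
      by_cases h : σ (β ^ m) = τ (β ^ m)
      · rw [if_pos h, h, sub_self, norm_zero, Real.log_zero, zero_add, one_mul,
          sum_log_mu_self' hm _ _ hx (by rw [hxm, h, map_pow]), hxn]
      · rw [if_neg h, zero_mul, add_zero, sum_log_mu hm _ _ (by rw [hxm, ← map_pow]; exact h), hxm, map_pow τ]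
    rw [Finset.sum_congr rfl fun τ _ => h1 τ, Finset.sum_add_distrib, ← Finset.sum_mul, count_eq]
  have h2 : ∀ ξ ∈ mu m, ∑ σ : K →ₐ[ℚ] ℂ, ∑ ξ' ∈ mu m, ∑ τ : K →ₐ[ℚ] ℂ, Real.log ‖ξ * σ β - ξ' * τ β‖ =
      II (β ^ m) (β ^ m) + finrank ℚ K * rr (β ^ m) * Real.log m := by
    intro ξ hξ
    rw [Finset.sum_congr rfl fun σ _ => h0 ξ hξ σ, Finset.sum_add_distrib, ← Finset.mul_sum,
      Finset.sum_add_distrib, ← Finset.mul_sum]
    have h3 : ∑ σ : K →ₐ[ℚ] ℂ, Real.log ‖σ β‖ = 0 := hu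
    rw [h3, mul_zero, add_zero, Finset.sum_const, Finset.card_univ, AlgHom.card, nsmul_eq_mul, II]
    ring
  rw [Finset.sum_congr rfl h2, Finset.sum_const, card_mu hm, nsmul_eq_mul]
  ring

lemma count_self [DecidableEq ℂ] (β : K) (hβ : β ≠ 0) {m : ℕ} (hm : 0 < m) {ξ : ℂ} (hξ : ξ ∈ mu m)
    (σ : K →ₐ[ℚ] ℂ) :
    ∑ ξ' ∈ mu m, ∑ τ : K →ₐ[ℚ] ℂ, (if ξ * σ β = ξ' * τ β then (1:ℝ) else 0) = rr (β ^ m) := by
  rw [Finset.sum_comm, ← count_eq (β ^ m) σ]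
  refine Finset.sum_congr rfl fun τ _ => ?_
  have hτ : τ β ≠ 0 := (map_ne_zero τ).mpr hβ
  by_cases h : σ (β ^ m) = τ (β ^ m)
  · rw [if_pos h, Finset.sum_eq_single (ξ * σ β / τ β)]
    · rw [if_pos]; field_simp
    · intro ξ' _ hne
      rw [if_neg]
      intro h1
      apply hne
      rw [h1]; field_simp
    · intro h1
      exfalso
      apply h1
      rw [mem_mu hm, div_pow, mul_pow, (mem_mu hm).mp hξ, one_mul, ← map_pow, ← map_pow, h,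
        div_self ((map_ne_zero τ).mpr (pow_ne_zero _ hβ))]
  · rw [if_neg h]
    refine Finset.sum_eq_zero fun ξ' hξ' => ?_
    rw [if_neg]
    intro h1
    apply h
    have h2 := congrArg (fun x => x ^ m) h1
    simp only [mul_pow] at h2
    rw [(mem_mu hm).mp hξ, (mem_mu hm).mp hξ', one_mul, one_mul, ← map_pow, ← map_pow] at h2
    exact h2

/-- the Frobenius gain for an element that need not generate `K` -/
lemma cross_frob {g : K} (hg : IsIntegral ℤ g) (h0 : g ≠ 0) (hroot : ∀ n : ℕ, 0 < n → g ^ n ≠ 1)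
    {p : ℕ} (hp : p.Prime) : rr g * (finrank ℚ K * Real.log p) ≤ II (g ^ p) g := by
  set L := adjoin ℚ {g} with hL
  set e := AdjoinSimple.gen ℚ g with he
  have hee : algebraMap L K e = g := gen_map g
  have hei : IsIntegral ℤ e := gen_int hg
  have he0 : e ≠ 0 := by
    rintro h
    rw [h, map_zero] at hee
    exact h0 hee.symm
  have heroot : ∀ n : ℕ, 0 < n → e ^ n ≠ 1 := by
    intro n hn h
    have h1 := congrArg (algebraMap L K) h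
    rw [map_pow, hee, map_one] at h1
    exact hroot n hn h1
  have hne : ∀ σ τ : L →ₐ[ℚ] ℂ, σ (e ^ p) ≠ τ e := by
    intro σ τ
    have := conj_ne' hei he0 heroot hp.ne_one σ τ
    rwa [pow_one] at this
  have h1 := pow_le_frob hei (CInj_gen g) p hp hne
  have hp0 : (0:ℝ) < p := by exact_mod_cast hp.pos
  have h2 := Real.log_le_log (by positivity) h1
  rw [Real.log_pow, Real.log_prod] at h2
  · have h3 : ∑ σ : L →ₐ[ℚ] ℂ, Real.log (∏ τ : L →ₐ[ℚ] ℂ, ‖σ (e ^ p) - τ e‖) =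
        ∑ σ : L →ₐ[ℚ] ℂ, ∑ τ : L →ₐ[ℚ] ℂ, Real.log ‖(σ e) ^ p - τ e‖ := by
      refine Finset.sum_congr rfl fun σ _ => ?_
      rw [Real.log_prod]
      · refine Finset.sum_congr rfl fun τ _ => ?_
        rw [map_pow]
      · intro τ _ h
        exact hne σ τ (sub_eq_zero.mp (norm_eq_zero.mp h))
    rw [h3] at h2
    have h4 : II (g ^ p) g = rr g * (rr g * ∑ σ : L →ₐ[ℚ] ℂ, ∑ τ : L →ₐ[ℚ] ℂ, Real.log ‖(σ e) ^ p - τ e‖) := by
      unfold II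
      have h5 : ∀ σ : K →ₐ[ℚ] ℂ, ∑ τ : K →ₐ[ℚ] ℂ, Real.log ‖σ (g ^ p) - τ g‖ =
          (fun z : ℂ => (rr g : ℝ) * ∑ τ : L →ₐ[ℚ] ℂ, Real.log ‖z ^ p - τ e‖) (σ g) := by
        intro σ
        rw [map_pow, sum_embeddings' g (fun z => Real.log ‖(σ g) ^ p - z‖), nsmul_eq_mul]
        rfl
      rw [Finset.sum_congr rfl fun σ _ => h5 σ, sum_embeddings' g
        (fun z : ℂ => (rr g : ℝ) * ∑ τ : L →ₐ[ℚ] ℂ, Real.log ‖z ^ p - τ e‖), nsmul_eq_mul,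
        ← Finset.mul_sum]
      rfl
    have h6 : (rr g : ℝ) * finrank ℚ L = finrank ℚ K := by
      have := finrank_mul_finrank ℚ L K
      rw [mul_comm] at this
      exact_mod_cast this
    rw [h4]
    apply mul_le_mul_of_nonneg_left _ (Nat.cast_nonneg _)
    rw [← h6, mul_assoc]
    exact mul_le_mul_of_nonneg_left h2 (Nat.cast_nonneg _)
  · intro σ _ h
    obtain ⟨τ, hτ, h⟩ := Finset.prod_eq_zero_iff.mp h
    exact hne σ τ (sub_eq_zero.mp (norm_eq_zero.mp h))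

end Pool.Agent.W666.DM
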