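import Mathlib
import Pool.Agent.W666.DL.Ineq

/-!
# Degrees of `ℚ(α ^ (p ^ j))`
-/

set_option autoImplicit false

open Finset Polynomial Module IntermediateField

namespace Pool.Agent.W666.DM

open Pool.Agent.H388SL Pool.Agent.W666.DL

variable {K : Type*} [Field K] [NumberField K]

lemma isInt (L : IntermediateField ℚ K) (g : K) : IsIntegral L g :=
  (Algebra.IsIntegral.isIntegral (R := ℚ) g).tower_top

/-- the degree of `ℚ(g)` over the field `L` contained in it -/
lemma rr_mul (L : IntermediateField ℚ K) (g : K) (hL : L ≤ ℚ⟮g⟯) :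
    rr g * (minpoly L g).natDegree = finrank L K := by
  have h1 : finrank L (adjoin L {g}) = (minpoly L g).natDegree := adjoin.finrank (isInt L g)
  have h2 := finrank_mul_finrank L (adjoin L {g}) K
  have h3 : (adjoin L {g}).restrictScalars ℚ = ℚ⟮g⟯ := by
    apply le_antisymm
    · intro x hx
      rw [mem_restrictScalars] at hx
      have h4 : adjoin L {g} ≤ extendScalars hL := by
        rw [adjoin_simple_le_iff, mem_extendScalars]
        exact mem_adjoin_simple_self ℚ g
      exact (mem_extendScalars hL).mp (h4 hx)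
    · rw [adjoin_simple_le_iff, mem_restrictScalars]
      exact mem_adjoin_simple_self L g
  have h5 : finrank (adjoin L {g}) K = rr g := by
    have h6 := finrank_mul_finrank ℚ (adjoin L {g}) K
    have h7 := finrank_mul_finrank ℚ ℚ⟮g⟯ K
    have h8 : finrank ℚ (adjoin L {g}) = finrank ℚ ℚ⟮g⟯ := by
      rw [← h3]; rfl
    rw [h8] at h6
    have h9 : 0 < finrank ℚ ℚ⟮g⟯ := finrank_pos
    exact Nat.eq_of_mul_eq_mul_left h9 (h6.trans h7.symm)
  rw [h5, h1] at h2
  rw [mul_comm]
  exact h2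

lemma pow_mem_adj (g : K) (n : ℕ) : ℚ⟮g ^ n⟯ ≤ ℚ⟮g⟯ := by
  rw [adjoin_simple_le_iff]
  exact pow_mem (mem_adjoin_simple_self ℚ g) n

lemma rr_pow (g : K) (n : ℕ) : rr g * (minpoly ℚ⟮g ^ n⟯ g).natDegree = rr (g ^ n) :=
  rr_mul _ _ (pow_mem_adj g n)

lemma rr_dvd_pow (g : K) (n : ℕ) : rr g ≤ rr (g ^ n) := by
  rw [← rr_pow g n]
  exact Nat.le_mul_of_pos_right _ (minpoly.natDegree_pos (isInt _ g))

lemma natDegree_le_of_root (L : IntermediateField ℚ K) (g : K) {p : ℕ} (hp : 0 < p) (a : L)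
    (ha : g ^ p = algebraMap L K a) : (minpoly L g).natDegree ≤ p := by
  have h1 : (X ^ p - C a : (L)[X]) ≠ 0 := X_pow_sub_C_ne_zero hp a
  have h2 : aeval g (X ^ p - C a : (L)[X]) = 0 := by
    rw [map_sub, map_pow, aeval_X, aeval_C, ha, sub_self]
  have h3 := natDegree_le_of_dvd (minpoly.dvd L g h2) h1
  rwa [natDegree_X_pow_sub_C] at h3

lemma natDegree_eq_of_irr (L : IntermediateField ℚ K) (g : K) {p : ℕ} (hp : 0 < p) (a : L)
    (ha : g ^ p = algebraMap L K a) (hirr : Irreducible (X ^ p - C a : (L)[X])) :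
    (minpoly L g).natDegree = p := by
  have h2 : aeval g (X ^ p - C a : (L)[X]) = 0 := by
    rw [map_sub, map_pow, aeval_X, aeval_C, ha, sub_self]
  have h3 := minpoly.eq_of_irreducible_of_monic hirr h2 (monic_X_pow_sub_C a hp.ne')
  rw [← h3, natDegree_X_pow_sub_C]

/-- if the degree drops by a factor strictly between `1` and `p`, then it does not drop again -/
lemma no_drop {g : K} (hg : g ≠ 0) {p : ℕ} (hp : p.Prime) (hp2 : p ≠ 2)
    (h1 : rr (g ^ p) ≠ p * rr g) (h2 : rr (g ^ p) ≠ rr g) : rr (g ^ (p * p)) = rr (g ^ p) := by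
  set L := ℚ⟮g ^ p⟯ with hL
  set a : L := AdjoinSimple.gen ℚ (g ^ p) with ha
  have haL : algebraMap L K a = g ^ p := AdjoinSimple.algebraMap_gen ℚ (g ^ p)
  -- a `p`-th root of `g ^ p` in `L`
  obtain ⟨γ, hγ⟩ : ∃ γ : L, γ ^ p = a := by
    by_contra hcon
    push Not at hcon
    have hirr := X_pow_sub_C_irreducible_of_prime hp hcon
    have h3 := natDegree_eq_of_irr L g hp.pos a haL.symm hirr
    have h4 := rr_pow g p
    rw [← hL, h3] at h4
    exact h1 (by rw [← h4, mul_comm])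
  have hγK : (γ : K) ^ p = g ^ p := by
    rw [← haL, ← hγ]; rfl
  have hγ0 : (γ : K) ≠ 0 := by
    intro h
    rw [h, zero_pow hp.ne_zero] at hγK
    exact hg (pow_eq_zero_iff hp.ne_zero |>.mp hγK.symm)
  have hgL : g ∉ L := by
    intro h
    have h3 : ℚ⟮g⟯ = L := le_antisymm (by rw [adjoin_simple_le_iff]; exact h) (pow_mem_adj g p)
    apply h2
    change finrank ℚ⟮g ^ p⟯ K = finrank ℚ⟮g⟯ K
    rw [h3]
  set ζ : K := g / γ with hζ
  have hζp : ζ ^ p = 1 := by
    rw [hζ, div_pow, hγK, div_self (pow_ne_zero _ hg)]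
  have hζL : ζ ∉ L := by
    intro h
    apply hgL
    have : g = ζ * γ := by rw [hζ]; field_simp
    rw [this]
    exact mul_mem h γ.2
  -- now the field of the `p * p`-th power
  set L' := ℚ⟮(g ^ p) ^ p⟯ with hL'
  have hL'L : L' ≤ L := pow_mem_adj (g ^ p) p
  set b : L' := AdjoinSimple.gen ℚ ((g ^ p) ^ p) with hb
  have hbL : algebraMap L' K b = (g ^ p) ^ p := AdjoinSimple.algebraMap_gen ℚ ((g ^ p) ^ p)
  rw [pow_mul]
  by_cases hmem : g ^ p ∈ L'
  · have h3 : L = L' := le_antisymm (by rw [hL, adjoin_simple_le_iff]; exact hmem) hL'L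
    change finrank ℚ⟮(g ^ p) ^ p⟯ K = finrank ℚ⟮g ^ p⟯ K
    rw [← hL', ← h3]
  · exfalso
    by_cases hA : ∃ c : L', c ^ p = b
    · obtain ⟨c, hc⟩ := hA
      have hcK : (c : K) ^ p = (g ^ p) ^ p := by rw [← hbL, ← hc]; rfl
      have hc0 : (c : K) ≠ 0 := by
        intro h
        rw [h, zero_pow hp.ne_zero] at hcK
        have := (pow_eq_zero_iff hp.ne_zero).mp hcK.symm
        exact hg (pow_eq_zero_iff hp.ne_zero |>.mp this)
      set ζ' : K := g ^ p / c with hζ'
      have hζ'p : ζ' ^ p = 1 := by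
        rw [hζ', div_pow, hcK, div_self (pow_ne_zero _ (pow_ne_zero _ hg))]
      have hζ'1 : ζ' ≠ 1 := by
        intro h
        apply hmem
        have : g ^ p = c := by
          rw [hζ'] at h
          exact (div_eq_one_iff_eq hc0).mp h
        rw [this]; exact c.2
      have hζ'L : ζ' ∈ L := div_mem (by rw [hL]; exact mem_adjoin_simple_self ℚ _) (hL'L c.2)
      have : Fact p.Prime := ⟨hp⟩
      have : NeZero p := ⟨hp.ne_zero⟩
      have hprim : IsPrimitiveRoot ζ' p := by
        have h7 := IsPrimitiveRoot.orderOf ζ'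
        rwa [orderOf_eq_prime hζ'p hζ'1] at h7
      obtain ⟨i, _, hi⟩ := hprim.eq_pow_of_pow_eq_one hζp
      exact hζL (hi ▸ pow_mem hζ'L i)
    · push Not at hA
      have hodd : Odd (p * p) := (hp.odd_of_ne_two hp2).mul (hp.odd_of_ne_two hp2)
      have hirr : Irreducible (X ^ (p * p) - C b : (L')[X]) := by
        apply X_pow_sub_C_irreducible_of_odd hodd
        intro q hq hqp c
        have : q = p := by
          rcases (Nat.Prime.dvd_mul hq).mp hqp with h | h <;> exact (Nat.prime_dvd_prime_iff_eq hq hp).mp h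
        rw [this]
        exact hA c
      have h3 : (minpoly L' (γ : K)).natDegree = p * p :=
        natDegree_eq_of_irr L' (γ : K) (Nat.mul_pos hp.pos hp.pos) b (by rw [pow_mul, hγK, hbL]) hirr
      have h4 : (minpoly L' (g ^ p)).natDegree ≤ p := natDegree_le_of_root L' (g ^ p) hp.pos b hbL.symm
      have h5 : adjoin L' {(γ : K)} ≤ adjoin L' {g ^ p} := by
        rw [adjoin_simple_le_iff]
        have h6 : L ≤ (adjoin L' {g ^ p}).restrictScalars ℚ := by
          rw [hL, adjoin_simple_le_iff, mem_restrictScalars]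
          exact mem_adjoin_simple_self L' (g ^ p)
        exact h6 γ.2
      have h7 := finrank_le_of_le_right h5
      rw [adjoin.finrank (isInt L' _), adjoin.finrank (isInt L' _), h3] at h7
      have h8 := hp.two_le
      nlinarith

/-- for every odd prime there is a good exponent -/
lemma exists_exp {α : K} (h0 : α ≠ 0) (hc : CInj α) {p : ℕ} (hp : p.Prime) (hp2 : p ≠ 2) :
    ∃ j : ℕ, 1 / Real.sqrt p ≤
      (rr (α ^ (p ^ j)) : ℝ) ^ 2 / (p ^ j * rr (α ^ (p ^ (j + 1)))) := by
  classical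
  have hR : ∀ j, 0 < rr (α ^ (p ^ j)) := fun j => rr_pos _
  have hp0 : (0:ℝ) < p := by exact_mod_cast hp.pos
  have hsp : 0 < Real.sqrt p := Real.sqrt_pos.mpr hp0
  have hsp2 : Real.sqrt p * Real.sqrt p = p := Real.mul_self_sqrt hp0.le
  -- first step that is not full
  have hex : ∃ j, rr (α ^ (p ^ (j + 1))) ≠ p * rr (α ^ (p ^ j)) := by
    by_contra hcon
    push Not at hcon
    have h1 : ∀ j, rr (α ^ (p ^ j)) = p ^ j * rr α := by
      intro j
      induction j with
      | zero => simp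
      | succ j ih => rw [hcon j, ih]; ring
    have h2 : ∀ j, rr (α ^ (p ^ j)) ≤ finrank ℚ K := by
      intro j
      have := rr_mul_natDegree (α ^ (p ^ j))
      rw [← this]
      exact Nat.le_mul_of_pos_right _ (minpoly.natDegree_pos (Algebra.IsIntegral.isIntegral _))
    have h3 := h2 (finrank ℚ K)
    rw [h1] at h3
    have h4 : finrank ℚ K < p ^ (finrank ℚ K) := Nat.lt_pow_self hp.one_lt
    have h5 := rr_pos α
    nlinarith
  set j0 := Nat.find hex with hj0
  have hj0' := Nat.find_spec hex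
  have hmin : ∀ i < j0, rr (α ^ (p ^ (i + 1))) = p * rr (α ^ (p ^ i)) := by
    intro i hi
    by_contra h
    exact Nat.find_min hex hi h
  have hRj : ∀ i ≤ j0, rr (α ^ (p ^ i)) = p ^ i := by
    intro i
    induction i with
    | zero => intro _; simp [rr_one hc]
    | succ i ih => intro hi; rw [hmin i (by omega), ih (by omega)]; ring
  rw [← hj0] at hj0'
  set R0 := rr (α ^ (p ^ j0)) with hR0
  set R1 := rr (α ^ (p ^ (j0 + 1))) with hR1
  have hR0' : R0 = p ^ j0 := hRj j0 le_rfl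
  have hR0r : (R0:ℝ) = (p:ℝ) ^ j0 := by exact_mod_cast hR0'
  have hR1pos : (0:ℝ) < R1 := by exact_mod_cast hR (j0 + 1)
  have hR0pos : (0:ℝ) < R0 := by exact_mod_cast hR j0
  by_cases hcase : (R1:ℝ) ≤ Real.sqrt p * R0
  · refine ⟨j0, ?_⟩
    rw [← hR0, ← hR1, ← hR0r, div_le_div_iff₀ hsp (by positivity), one_mul]
    nlinarith
  · push Not at hcase
    refine ⟨j0 + 1, ?_⟩
    have hne : R1 ≠ R0 := by
      intro h
      rw [h] at hcase
      have : 1 ≤ Real.sqrt p := by
        rw [Real.one_le_sqrt]; exact_mod_cast hp.one_le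
      nlinarith
    have e1 : α ^ (p ^ (j0 + 1)) = (α ^ (p ^ j0)) ^ p := by rw [← pow_mul, pow_succ]
    have e2 : α ^ (p ^ (j0 + 1 + 1)) = (α ^ (p ^ j0)) ^ (p * p) := by
      rw [← pow_mul]; congr 1; ring
    have h3 : rr (α ^ (p ^ (j0 + 1 + 1))) = R1 := by
      rw [e2, hR1, e1]
      apply no_drop (pow_ne_zero _ h0) hp hp2
      · rw [← e1]; exact hj0'
      · rw [← e1]; exact hne
    rw [h3, ← hR1]
    have e3 : (R1:ℝ) ^ 2 / ((p:ℝ) ^ (j0 + 1) * R1) = R1 / (R0 * p) := by
      rw [pow_succ (p:ℝ) j0, ← hR0r]; field_simp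
    rw [e3, div_le_div_iff₀ hsp (by positivity), one_mul]
    nlinarith

end Pool.Agent.W666.DM
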