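import Mathlib
import Pool.Agent.W666.DM.Fam

/-!
# The energy inequality with families of roots
-/

set_option autoImplicit false

open Finset Polynomial Module IntermediateField

namespace Pool.Agent.W666.DM

open Pool.Agent.H388SL Pool.Agent.W666.DL

variable {K : Type*} [Field K] [NumberField K]

lemma dsum {E : Type*} (Q : Finset ℕ) (a : ℕ → Finset ℂ) (b : Finset E)
    (G : (Σ _ : ℕ, ℂ × E) → (Σ _ : ℕ, ℂ × E) → ℝ) :
    ∑ i ∈ Q.sigma (fun p => a p ×ˢ b), ∑ j ∈ Q.sigma (fun p => a p ×ˢ b), G i j =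
      ∑ p ∈ Q, ∑ q ∈ Q, ∑ ξ ∈ a p, ∑ σ ∈ b, ∑ ξ' ∈ a q, ∑ τ ∈ b, G ⟨p, (ξ, σ)⟩ ⟨q, (ξ', τ)⟩ := by
  rw [Finset.sum_sigma]
  refine Finset.sum_congr rfl fun p _ => ?_
  rw [Finset.sum_product]
  have h0 : ∀ ξ σ, ∑ j ∈ Q.sigma (fun p => a p ×ˢ b), G ⟨p, (ξ, σ)⟩ j =
      ∑ q ∈ Q, ∑ ξ' ∈ a q, ∑ τ ∈ b, G ⟨p, (ξ, σ)⟩ ⟨q, (ξ', τ)⟩ := by
    intro ξ σ
    rw [Finset.sum_sigma]
    refine Finset.sum_congr rfl fun q _ => ?_
    rw [Finset.sum_product]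
  simp_rw [h0]
  have h1 : ∀ ξ ∈ a p, ∑ σ ∈ b, ∑ q ∈ Q, ∑ ξ' ∈ a q, ∑ τ ∈ b, G ⟨p, (ξ, σ)⟩ ⟨q, (ξ', τ)⟩ =
      ∑ q ∈ Q, ∑ σ ∈ b, ∑ ξ' ∈ a q, ∑ τ ∈ b, G ⟨p, (ξ, σ)⟩ ⟨q, (ξ', τ)⟩ :=
    fun ξ _ => Finset.sum_comm
  rw [Finset.sum_congr rfl h1, Finset.sum_comm]

lemma sum_swap {A B C E : Type*} (a : Finset A) (b : Finset B) (c : Finset C) (e : Finset E)
    (F : A → B → C → E → ℝ) :
    ∑ x ∈ a, ∑ y ∈ b, ∑ z ∈ c, ∑ w ∈ e, F x y z w = ∑ z ∈ c, ∑ w ∈ e, ∑ x ∈ a, ∑ y ∈ b, F x y z w := by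
  have h1 : ∑ x ∈ a, ∑ y ∈ b, ∑ z ∈ c, ∑ w ∈ e, F x y z w =
      ∑ u ∈ a ×ˢ b, ∑ v ∈ c ×ˢ e, F u.1 u.2 v.1 v.2 := by
    rw [Finset.sum_product]
    refine Finset.sum_congr rfl fun x _ => Finset.sum_congr rfl fun y _ => ?_
    rw [Finset.sum_product]
  have h2 : ∑ z ∈ c, ∑ w ∈ e, ∑ x ∈ a, ∑ y ∈ b, F x y z w =
      ∑ v ∈ c ×ˢ e, ∑ u ∈ a ×ˢ b, F u.1 u.2 v.1 v.2 := by
    rw [Finset.sum_product]
    refine Finset.sum_congr rfl fun x _ => Finset.sum_congr rfl fun y _ => ?_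
    rw [Finset.sum_product]
  rw [h1, h2, Finset.sum_comm]

lemma arith2 {A D d S U G X lm T L1 W ln ld lδ : ℝ}
    (hlow : A ^ 2 * D + 2 * A * d * S + (U * D - d * S) ≤ X)
    (hE : X ≤ 2 * (d * (A + G)) * ((A + T) * lm) + (d * (A + G)) ^ 2 * L1 + d * (A ^ 2 + U) * (ln + ld))
    (h7 : (d * (A + G)) ^ 2 * L1 ≤ d * W)
    (h8 : (A ^ 2 + U) * (d * (lδ + ld)) ≤ (A ^ 2 + U) * D) :
    d * (2 * A * S) ≤ d * (2 * (A + G) * (A + T) * lm + W + (A ^ 2 + U) * (ln - lδ) + S) := by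
  linarith

/-- the main inequality -/
theorem fam_ineq {α : K} (hα : IsIntegral ℤ α) (h0 : α ≠ 0) (hroot : ∀ n : ℕ, 0 < n → α ^ n ≠ 1)
    (hc : CInj α) (hunit : NL α = 0) (P : Finset ℕ) (hP : ∀ p ∈ P, p.Prime)
    (m : ℕ → ℕ) (hm : ∀ p ∈ P, ∃ j : ℕ, m p = p ^ j)
    (u G : ℕ → ℝ)
    (hu : ∀ p ∈ P, u p = (rr (α ^ m p) : ℝ) ^ 2 / (m p * rr (α ^ (p * m p))))
    (hG : ∀ p ∈ P, G p = (rr (α ^ m p) : ℝ) / rr (α ^ (p * m p)))
    {A : ℝ} (hA : 0 ≤ A) {n δ : ℝ} (hn : 1 ≤ n) (hδ0 : 0 < δ)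
    (hD : finrank ℚ K * Real.log (δ * finrank ℚ K) ≤ NL (aeval α (derivative (minpoly ℤ α)))) :
    2 * A * ∑ p ∈ P, u p * Real.log p ≤
      2 * (A + ∑ p ∈ P, G p) * (A + ∑ p ∈ P, G p * p) * lam α
        + (A + ∑ p ∈ P, G p) ^ 2 / n + (A ^ 2 + ∑ p ∈ P, u p) * Real.log (n / δ)
        + ∑ p ∈ P, u p * Real.log p := by
  classical
  set d := finrank ℚ K with hd
  have hd0 : 0 < d := finrank_pos
  have hd1 : (1:ℝ) ≤ d := by exact_mod_cast hd0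
  have hcard : Fintype.card (K →ₐ[ℚ] ℂ) = d := AlgHom.card ℚ K ℂ
  have h1P : 1 ∉ P := fun h => Nat.not_prime_one (hP 1 h)
  set Q : Finset ℕ := insert 1 P with hQ
  have hsumQ : ∀ F : ℕ → ℝ, ∑ p ∈ Q, F p = F 1 + ∑ p ∈ P, F p := fun F => by
    rw [hQ, Finset.sum_insert h1P]
  have hQcases : ∀ p ∈ Q, p = 1 ∨ (p ≠ 1 ∧ p ∈ P) := by
    intro p hp
    rw [hQ, Finset.mem_insert] at hp
    rcases hp with h | h
    · exact Or.inl h
    · exact Or.inr ⟨(hP p h).ne_one, h⟩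
  set M : ℕ → ℕ := fun p => if p = 1 then 1 else m p with hM
  have hM1 : M 1 = 1 := by simp [hM]
  have hMP : ∀ p ∈ P, M p = m p := by
    intro p hp
    rw [hM]; dsimp only; rw [if_neg (hP p hp).ne_one]
  have hM0 : ∀ p ∈ Q, 0 < M p := by
    intro p hp
    rcases hQcases p hp with rfl | ⟨_, h⟩
    · rw [hM1]; norm_num
    · rw [hMP p h]
      obtain ⟨j, hj⟩ := hm p h
      rw [hj]; exact Nat.pow_pos (hP p h).pos
  have hcop : ∀ p ∈ Q, ∀ q ∈ Q, p ≠ q → Nat.Coprime (M p) (M q) := by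
    intro p hp q hq hpq
    rcases hQcases p hp with rfl | ⟨_, h⟩
    · rw [hM1]; exact Nat.coprime_one_left _
    · rcases hQcases q hq with rfl | ⟨_, h'⟩
      · rw [hM1]; exact Nat.coprime_one_right _
      · rw [hMP p h, hMP q h']
        obtain ⟨j, hj⟩ := hm p h
        obtain ⟨k, hk⟩ := hm q h'
        rw [hj, hk]
        exact Nat.Coprime.pow _ _ ((Nat.coprime_primes (hP p h) (hP q h')).mpr hpq)
  have hm0 : ∀ p ∈ P, 0 < m p := by
    intro p hp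
    rw [← hMP p hp]; exact hM0 p (Finset.mem_insert_of_mem hp)
  have hm0r : ∀ p ∈ P, (0:ℝ) < m p := fun p hp => by exact_mod_cast hm0 p hp
  have hR0 : ∀ k : ℕ, (0:ℝ) < rr (α ^ k) := fun k => by exact_mod_cast rr_pos (α ^ k)
  have hu0 : ∀ p ∈ P, 0 ≤ u p := by
    intro p hp
    rw [hu p hp]; positivity
  have hG0 : ∀ p ∈ P, 0 ≤ G p := by
    intro p hp
    rw [hG p hp]; positivity
  set w : ℕ → ℝ := fun p => if p = 1 then A else (rr (α ^ m p) : ℝ) / (m p * rr (α ^ (p * m p))) with hw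
  have hw1 : w 1 = A := by simp [hw]
  have hwP : ∀ p ∈ P, w p = (rr (α ^ m p) : ℝ) / (m p * rr (α ^ (p * m p))) := by
    intro p hp
    rw [hw]; dsimp only; rw [if_neg (hP p hp).ne_one]
  have hw0 : ∀ p ∈ Q, 0 ≤ w p := by
    intro p hp
    rcases hQcases p hp with rfl | ⟨_, h⟩
    · rw [hw1]; exact hA
    · rw [hwP p h]; positivity
  set x : (Σ _ : ℕ, ℂ × (K →ₐ[ℚ] ℂ)) → ℝ := fun i => w i.1 with hx
  set z : (Σ _ : ℕ, ℂ × (K →ₐ[ℚ] ℂ)) → ℂ := fun i => i.2.1 * i.2.2 (α ^ i.1) with hz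
  set s : Finset (Σ _ : ℕ, ℂ × (K →ₐ[ℚ] ℂ)) :=
    Q.sigma (fun p => mu (M p) ×ˢ (Finset.univ : Finset (K →ₐ[ℚ] ℂ))) with hs
  have hx0 : ∀ i ∈ s, 0 ≤ x i := by
    intro i hi
    rw [hs, Finset.mem_sigma] at hi
    exact hw0 _ hi.1
  set N : ℝ := n * d with hN
  have hN1 : 1 ≤ N := by nlinarith
  have hN0 : 0 < N := by linarith
  have ht0 : 0 ≤ 1 - 1 / N := by
    rw [sub_nonneg, div_le_one hN0]; exact hN1
  have ht1 : 1 - 1 / N < 1 := by
    have : 0 < 1 / N := by positivity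
    linarith
  have hE := energy2 s x hx0 z ht0 ht1
  -- left side
  have hLHS : ∑ i ∈ s, ∑ j ∈ s, x i * x j * Real.log ‖z i - z j‖
      = ∑ p ∈ Q, ∑ q ∈ Q, w p * w q * JJ (α ^ p) (α ^ q) (M p) (M q) := by
    rw [hs, dsum]
    refine Finset.sum_congr rfl fun p _ => Finset.sum_congr rfl fun q _ => ?_
    simp only [JJ, Finset.mul_sum]
    rfl
  have hne : ∀ p q k : ℕ, p ≠ q → 0 < k → ∀ σ τ : K →ₐ[ℚ] ℂ, σ ((α ^ p) ^ k) ≠ τ ((α ^ q) ^ k) := by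
    intro p q k hpq hk σ τ
    rw [← pow_mul, ← pow_mul]
    apply conj_ne' hα h0 hroot
    intro h
    exact hpq (Nat.eq_of_mul_eq_mul_right hk h)
  have hJcross : ∀ p ∈ Q, ∀ q ∈ Q, p ≠ q → JJ (α ^ p) (α ^ q) (M p) (M q) =
      II ((α ^ p) ^ (M p * M q)) ((α ^ q) ^ (M p * M q)) := by
    intro p hp q hq hpq
    exact JJ_cross _ _ (hM0 p hp) (hM0 q hq) (hcop p hp q hq hpq)
      (hne p q _ hpq (Nat.mul_pos (hM0 p hp) (hM0 q hq)))
  have hJnn : ∀ p ∈ Q, ∀ q ∈ Q, p ≠ q → 0 ≤ JJ (α ^ p) (α ^ q) (M p) (M q) := by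
    intro p hp q hq hpq
    rw [hJcross p hp q hq hpq]
    exact cross_nonneg ((hα.pow p).pow _) ((hα.pow q).pow _)
      (hne p q _ hpq (Nat.mul_pos (hM0 p hp) (hM0 q hq)))
  set D : ℝ := NL (aeval α (derivative (minpoly ℤ α))) with hDdef
  have m1 : (1:ℕ) ∈ Q := Finset.mem_insert_self _ _
  have mP : ∀ p ∈ P, p ∈ Q := fun p hp => Finset.mem_insert_of_mem hp
  have hNLp : ∀ p : ℕ, NL (α ^ p) = 0 := fun p => by rw [NL_pow, hunit, mul_zero]
  have hJ11 : JJ (α ^ 1) (α ^ 1) (M 1) (M 1) = D := by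
    rw [hM1, pow_one, JJ_self α h0 hunit one_pos, pow_one, Nat.cast_one, Real.log_one, mul_zero,
      mul_zero, add_zero, one_mul]
    have := self_energy hα
    rw [rr_one hc, Nat.cast_one, one_mul] at this
    exact this
  have hJpp : ∀ p ∈ P, m p * (rr (α ^ (p * m p)) * (D - d * Real.log p)) ≤
      JJ (α ^ p) (α ^ p) (M p) (M p) := by
    intro p hp
    have hpp := hP p hp
    have hp0 : (0:ℝ) < p := by exact_mod_cast hpp.pos
    rw [hMP p hp, JJ_self (α ^ p) (pow_ne_zero _ h0) (hNLp p) (hm0 p hp), ← pow_mul]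
    have h1 : II (α ^ (p * m p)) (α ^ (p * m p)) = rr (α ^ (p * m p)) *
      NL (aeval (α ^ (p * m p)) (derivative (minpoly ℤ (α ^ (p * m p))))) := self_energy (hα.pow _)
    have h2 := disc_pow hα h0 hunit (Nat.mul_pos hpp.pos (hm0 p hp))
    rw [← hDdef, ← hd, Nat.cast_mul, Real.log_mul hp0.ne' (hm0r p hp).ne'] at h2
    rw [h1, ← mul_add]
    apply mul_le_mul_of_nonneg_left _ (hm0r p hp).le
    have h3 := mul_le_mul_of_nonneg_left h2 (hR0 (p * m p)).le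
    rw [← hd]
    linarith
  have hJp1 : ∀ p ∈ P, rr (α ^ m p) * (d * Real.log p) ≤ JJ (α ^ p) (α ^ 1) (M p) (M 1) := by
    intro p hp
    have hpp := hP p hp
    rw [hJcross p (mP p hp) 1 m1 hpp.ne_one, hM1, hMP p hp, mul_one, pow_one]
    have h1 : (α ^ p) ^ m p = (α ^ m p) ^ p := by rw [← pow_mul, ← pow_mul, mul_comm]
    rw [h1]
    apply cross_frob (hα.pow _) (pow_ne_zero _ h0) _ hpp
    intro k hk h
    rw [← pow_mul] at h
    exact hroot _ (Nat.mul_pos (hm0 p hp) hk) h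
  have hJcomm : ∀ p q : ℕ, JJ (α ^ p) (α ^ q) (M p) (M q) = JJ (α ^ q) (α ^ p) (M q) (M p) := by
    intro p q
    unfold JJ
    rw [sum_swap]
    refine Finset.sum_congr rfl fun ξ' _ => Finset.sum_congr rfl fun τ _ =>
      Finset.sum_congr rfl fun ξ _ => Finset.sum_congr rfl fun σ _ => ?_
    rw [norm_sub_rev]
  have hwu : ∀ p ∈ P, w p * w p * (m p * rr (α ^ (p * m p))) = u p := by
    intro p hp
    have h1 := (hm0r p hp).ne'
    have h2 := (hR0 (p * m p)).ne'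
    rw [hwP p hp, hu p hp]; field_simp
  have hwu' : ∀ p ∈ P, w p * rr (α ^ m p) = u p := by
    intro p hp
    rw [hwP p hp, hu p hp]; ring
  have hwG : ∀ p ∈ P, m p * w p = G p := by
    intro p hp
    have h1 := (hm0r p hp).ne'
    have h2 := (hR0 (p * m p)).ne'
    rw [hwP p hp, hG p hp]; field_simp
  have hlow : A ^ 2 * D + 2 * A * d * ∑ p ∈ P, u p * Real.log p + ∑ p ∈ P, u p * (D - d * Real.log p) ≤
      ∑ p ∈ Q, ∑ q ∈ Q, w p * w q * JJ (α ^ p) (α ^ q) (M p) (M q) := by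
    rw [hsumQ, hsumQ]
    have e2 : ∀ p, ∑ q ∈ Q, w p * w q * JJ (α ^ p) (α ^ q) (M p) (M q) =
        w p * w 1 * JJ (α ^ p) (α ^ 1) (M p) (M 1) + ∑ q ∈ P, w p * w q * JJ (α ^ p) (α ^ q) (M p) (M q) :=
      fun p => hsumQ _
    simp_rw [e2]
    rw [Finset.sum_add_distrib, hw1, hJ11]
    have i3 : ∑ p ∈ P, A * u p * (d * Real.log p) ≤ ∑ p ∈ P, w p * A * JJ (α ^ p) (α ^ 1) (M p) (M 1) := by
      refine Finset.sum_le_sum fun p hp => ?_
      calc A * u p * (d * Real.log p) = w p * A * (rr (α ^ m p) * (d * Real.log p)) := by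
            rw [← hwu' p hp]; ring
        _ ≤ _ := mul_le_mul_of_nonneg_left (hJp1 p hp) (mul_nonneg (hw0 p (mP p hp)) hA)
    have i2 : ∑ p ∈ P, A * u p * (d * Real.log p) ≤ ∑ q ∈ P, A * w q * JJ (α ^ 1) (α ^ q) (M 1) (M q) := by
      refine i3.trans (le_of_eq ?_)
      refine Finset.sum_congr rfl fun p _ => ?_
      rw [hJcomm 1 p, mul_comm (w p) A]
    have i4 : ∑ p ∈ P, u p * (D - d * Real.log p) ≤
        ∑ p ∈ P, ∑ q ∈ P, w p * w q * JJ (α ^ p) (α ^ q) (M p) (M q) := by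
      refine Finset.sum_le_sum fun p hp => ?_
      have h1 : w p * w p * JJ (α ^ p) (α ^ p) (M p) (M p) ≤
          ∑ q ∈ P, w p * w q * JJ (α ^ p) (α ^ q) (M p) (M q) := by
        rw [← Finset.add_sum_erase _ _ hp]
        have : 0 ≤ ∑ q ∈ P.erase p, w p * w q * JJ (α ^ p) (α ^ q) (M p) (M q) := by
          refine Finset.sum_nonneg fun q hq => ?_
          have hq' := Finset.mem_of_mem_erase hq
          exact mul_nonneg (mul_nonneg (hw0 p (mP p hp)) (hw0 q (mP q hq')))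
            (hJnn p (mP p hp) q (mP q hq') (Finset.ne_of_mem_erase hq).symm)
        linarith
      refine le_trans ?_ h1
      calc u p * (D - d * Real.log p)
          = w p * w p * (m p * (rr (α ^ (p * m p)) * (D - d * Real.log p))) := by
            rw [← hwu p hp]; ring
        _ ≤ _ := mul_le_mul_of_nonneg_left (hJpp p hp) (mul_nonneg (hw0 p (mP p hp)) (hw0 p (mP p hp)))
    have e3 : ∑ p ∈ P, A * u p * (d * Real.log p) = A * d * ∑ p ∈ P, u p * Real.log p := by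
      rw [Finset.mul_sum]
      refine Finset.sum_congr rfl fun p _ => ?_
      ring
    rw [e3] at i2 i3
    nlinarith
  -- right side
  have r1 : ∑ i ∈ s, x i = d * (A + ∑ p ∈ P, G p) := by
    rw [hs, Finset.sum_sigma]
    have h1 : ∀ p ∈ Q, ∑ y ∈ mu (M p) ×ˢ (Finset.univ : Finset (K →ₐ[ℚ] ℂ)), x ⟨p, y⟩ = d * (M p * w p) := by
      intro p hp
      change ∑ y ∈ mu (M p) ×ˢ (Finset.univ : Finset (K →ₐ[ℚ] ℂ)), w p = d * (M p * w p)
      rw [Finset.sum_const, Finset.card_product, card_mu (hM0 p hp), Finset.card_univ, hcard, nsmul_eq_mul]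
      push_cast; ring
    rw [Finset.sum_congr rfl h1, hsumQ, hM1, hw1,
      Finset.sum_congr rfl fun p hp => by rw [hMP p hp, hwG p hp], ← Finset.mul_sum]
    push_cast; ring
  have r3 : ∑ i ∈ s, x i * Real.log (max 1 ‖z i‖) = (A + ∑ p ∈ P, G p * p) * lam α := by
    rw [hs, Finset.sum_sigma]
    have h1 : ∀ p ∈ Q, ∑ y ∈ mu (M p) ×ˢ (Finset.univ : Finset (K →ₐ[ℚ] ℂ)),
        x ⟨p, y⟩ * Real.log (max 1 ‖z ⟨p, y⟩‖) = M p * w p * (p * lam α) := by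
      intro p hp
      rw [Finset.sum_product]
      have h2 : ∀ ξ ∈ mu (M p), ∑ σ : K →ₐ[ℚ] ℂ, x ⟨p, (ξ, σ)⟩ * Real.log (max 1 ‖z ⟨p, (ξ, σ)⟩‖) =
          w p * (p * lam α) := by
        intro ξ hξ
        rw [← lam_pow, lam, Finset.mul_sum]
        refine Finset.sum_congr rfl fun σ _ => ?_
        have h3 : ‖z ⟨p, (ξ, σ)⟩‖ = ‖σ (α ^ p)‖ := by
          change ‖ξ * σ (α ^ p)‖ = _
          rw [norm_mul, norm_mu (hM0 p hp) hξ, one_mul]
        rw [h3]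
      rw [Finset.sum_congr rfl h2, Finset.sum_const, card_mu (hM0 p hp), nsmul_eq_mul]
      ring
    rw [Finset.sum_congr rfl h1, hsumQ, hM1, hw1,
      Finset.sum_congr rfl fun p hp => by rw [hMP p hp, hwG p hp, ← mul_assoc], ← Finset.sum_mul]
    push_cast; ring
  have r2 : ∑ i ∈ s, ∑ j ∈ s, (if z i = z j then x i * x j else 0) = d * (A ^ 2 + ∑ p ∈ P, u p) := by
    rw [hs, dsum]
    have h1 : ∀ p ∈ Q, ∑ q ∈ Q, ∑ ξ ∈ mu (M p), ∑ σ : K →ₐ[ℚ] ℂ, ∑ ξ' ∈ mu (M q), ∑ τ : K →ₐ[ℚ] ℂ,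
        (if z ⟨p, (ξ, σ)⟩ = z ⟨q, (ξ', τ)⟩ then x ⟨p, (ξ, σ)⟩ * x ⟨q, (ξ', τ)⟩ else 0) =
        d * (w p * w p * (M p * rr ((α ^ p) ^ M p))) := by
      intro p hp
      rw [Finset.sum_eq_single p]
      · have h2 : ∀ ξ ∈ mu (M p), ∑ σ : K →ₐ[ℚ] ℂ, ∑ ξ' ∈ mu (M p), ∑ τ : K →ₐ[ℚ] ℂ,
            (if z ⟨p, (ξ, σ)⟩ = z ⟨p, (ξ', τ)⟩ then x ⟨p, (ξ, σ)⟩ * x ⟨p, (ξ', τ)⟩ else 0) =
            d * (w p * w p * rr ((α ^ p) ^ M p)) := by
          intro ξ hξ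
          have h3 : ∀ σ : K →ₐ[ℚ] ℂ, ∑ ξ' ∈ mu (M p), ∑ τ : K →ₐ[ℚ] ℂ,
              (if z ⟨p, (ξ, σ)⟩ = z ⟨p, (ξ', τ)⟩ then x ⟨p, (ξ, σ)⟩ * x ⟨p, (ξ', τ)⟩ else 0) =
              w p * w p * rr ((α ^ p) ^ M p) := by
            intro σ
            rw [← count_self (α ^ p) (pow_ne_zero _ h0) (hM0 p hp) hξ σ, Finset.mul_sum]
            refine Finset.sum_congr rfl fun ξ' _ => ?_
            rw [Finset.mul_sum]
            refine Finset.sum_congr rfl fun τ _ => ?_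
            change (if ξ * σ (α ^ p) = ξ' * τ (α ^ p) then w p * w p else 0) =
              w p * w p * (if ξ * σ (α ^ p) = ξ' * τ (α ^ p) then 1 else 0)
            split_ifs
            · rw [mul_one]
            · rw [mul_zero]
          rw [Finset.sum_congr rfl fun σ _ => h3 σ, Finset.sum_const, Finset.card_univ, hcard, nsmul_eq_mul]
        rw [Finset.sum_congr rfl h2, Finset.sum_const, card_mu (hM0 p hp), nsmul_eq_mul]
        ring
      · intro q hq hqp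
        refine Finset.sum_eq_zero fun ξ hξ => Finset.sum_eq_zero fun σ _ =>
          Finset.sum_eq_zero fun ξ' hξ' => Finset.sum_eq_zero fun τ _ => ?_
        rw [if_neg]
        intro h
        have h2 : (ξ * σ (α ^ p)) ^ (M p * M q) = (ξ' * τ (α ^ q)) ^ (M p * M q) := by
          rw [show ξ * σ (α ^ p) = ξ' * τ (α ^ q) from h]
        rw [mul_pow, mul_pow, pow_mul ξ, (mem_mu (hM0 p hp)).mp hξ, one_pow, one_mul,
          mul_comm (M p) (M q), pow_mul ξ', (mem_mu (hM0 q hq)).mp hξ', one_pow, one_mul,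
          ← map_pow, ← map_pow] at h2
        exact hne p q _ hqp.symm (Nat.mul_pos (hM0 q hq) (hM0 p hp)) σ τ h2
      · intro h; exact absurd hp h
    rw [Finset.sum_congr rfl h1, hsumQ, hM1, hw1, pow_one, pow_one, rr_one hc]
    have h3 : ∀ p ∈ P, (d:ℝ) * (w p * w p * (M p * rr ((α ^ p) ^ M p))) = d * u p := by
      intro p hp
      rw [hMP p hp, ← pow_mul, hwu p hp]
    rw [Finset.sum_congr rfl h3, ← Finset.mul_sum]
    push_cast
    ring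
  rw [hLHS, r1, r3, r2] at hE
  have e1 : 1 / (1 - (1 - 1 / N)) = N := by
    field_simp; ring
  rw [e1] at hE
  have e2 : Real.log (2 / (1 + (1 - 1 / N))) ≤ 1 / N := by
    have h1 : 1 + (1 - 1 / N) = (2 * N - 1) / N := by field_simp; ring
    have h2 : 2 / (1 + (1 - 1 / N)) = 1 + 1 / (2 * N - 1) := by
      rw [h1]
      have : 2 * N - 1 ≠ 0 := by nlinarith
      field_simp; ring
    rw [h2]
    have h3 : 0 < 1 / (2 * N - 1) := by apply div_pos one_pos; nlinarith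
    have h4 := Real.log_le_sub_one_of_pos (show 0 < 1 + 1 / (2 * N - 1) by linarith)
    have h5 : 1 / (2 * N - 1) ≤ 1 / N := by
      apply one_div_le_one_div_of_le hN0; linarith
    linarith
  set U := ∑ p ∈ P, u p with hU
  set S := ∑ p ∈ P, u p * Real.log p with hS
  set T := ∑ p ∈ P, G p * (p:ℝ) with hT
  set GG := ∑ p ∈ P, G p with hGG
  have hU0 : 0 ≤ U := Finset.sum_nonneg hu0
  have hGG0 : 0 ≤ GG := Finset.sum_nonneg hG0
  have h7 : ((d : ℝ) * (A + GG)) ^ 2 * Real.log (2 / (1 + (1 - 1 / N))) ≤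
      ((d : ℝ) * (A + GG)) ^ 2 * (1 / N) := mul_le_mul_of_nonneg_left e2 (by positivity)
  have e4 : ∑ p ∈ P, u p * (D - d * Real.log p) = U * D - d * S := by
    rw [hU, hS, Finset.sum_mul, Finset.mul_sum, ← Finset.sum_sub_distrib]
    refine Finset.sum_congr rfl fun p _ => ?_
    ring
  rw [e4] at hlow
  have hd' : (0:ℝ) < d := by exact_mod_cast hd0
  have hlogN : Real.log N = Real.log n + Real.log d := by
    rw [hN, Real.log_mul (by linarith) hd'.ne']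
  have hlogd : Real.log (δ * d) = Real.log δ + Real.log d := by
    rw [Real.log_mul hδ0.ne' hd'.ne']
  have hlogn : Real.log (n / δ) = Real.log n - Real.log δ := by
    rw [Real.log_div (by linarith) hδ0.ne']
  have h8 : (A ^ 2 + U) * (d * Real.log (δ * d)) ≤ (A ^ 2 + U) * D :=
    mul_le_mul_of_nonneg_left hD (by positivity)
  rw [hlogd] at h8
  rw [hlogN] at hE
  rw [hlogn]
  have e5 : ((d : ℝ) * (A + GG)) ^ 2 * (1 / N) = d * ((A + GG) ^ 2 / n) := by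
    rw [hN]
    have : n ≠ 0 := by linarith
    field_simp
  rw [e5] at h7
  exact le_of_mul_le_mul_left (arith2 hlow hE h7 h8) hd'

end Pool.Agent.W666.DM
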