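import Mathlib
import Pool.Agent.W666.DM.Ineq2
import Pool.Agent.W666.DM.Merit
import Pool.Agent.W666.DL.Primes

/-!
# The lower bound for the height, all algebraic units
-/

set_option autoImplicit false

open Finset Polynomial Module IntermediateField

namespace Pool.Agent.W666.DM

open Pool.Agent.H388SL Pool.Agent.W666.DL

/-- the real-variable ending -/
lemma real_all {s r S U GG T L lm : ℝ} (hr2 : r ^ 2 = s) (hr : 80 * L ^ 2 ≤ r) (hL : 1 ≤ L)
    (hS : r / 4 ≤ S) (hS2 : S ≤ 2 * s) (hU0 : 0 ≤ U) (hU : U ≤ S) (hG0 : 0 ≤ GG) (hG : GG ≤ s)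
    (hT : T ≤ s * s) (hlm : 0 ≤ lm)
    (hmain : 2 * (S / (2 * L)) * S ≤ 2 * (S / (2 * L) + GG) * (S / (2 * L) + T) * lm
      + (S / (2 * L) + GG) ^ 2 / (2 * s) ^ 2 + ((S / (2 * L)) ^ 2 + U) * L + S) :
    1 / (256 * L * s ^ 2) ≤ lm := by
  have hL0 : 0 < L := by linarith
  have hL2 : 1 ≤ L ^ 2 := one_le_pow₀ hL
  have hr80 : 80 ≤ r := by linarith
  have hs : 6400 ≤ s := by rw [← hr2]; nlinarith
  have hs0 : 0 < s := by linarith
  have hS20 : 20 * L ^ 2 ≤ S := by linarith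
  have hS0 : 0 < S := by linarith
  set A := S / (2 * L) with hA
  have hA0 : 0 ≤ A := by positivity
  have hAL : A * (2 * L) = S := by rw [hA]; field_simp
  have hAs : A ≤ s := by
    rw [hA, div_le_iff₀ (by positivity)]
    have : s * 2 ≤ s * (2 * L) := mul_le_mul_of_nonneg_left (by linarith only [hL]) hs0.le
    linarith only [this, hS2]
  have hss : s ≤ s * s := by
    have := mul_le_mul_of_nonneg_right hs hs0.le
    linarith only [this, hs0]
  set Y := S ^ 2 / L with hY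
  have hYL : Y * L = S ^ 2 := by rw [hY]; field_simp
  have t0 : 2 * A * S = Y := by rw [hA, hY]; field_simp
  have t1 : A ^ 2 * L = Y / 4 := by rw [hA, hY]; field_simp; ring
  have hSLY : 20 * (S * L) ≤ Y := by
    rw [hY, le_div_iff₀ hL0]
    have := mul_le_mul_of_nonneg_left hS20 hS0.le
    calc 20 * (S * L) * L = S * (20 * L ^ 2) := by ring
      _ ≤ S * S := this
      _ = S ^ 2 := by ring
  have hSSL : S ≤ S * L := by
    have := mul_le_mul_of_nonneg_left hL hS0.le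
    linarith only [this]
  have t2 : U * L ≤ S * L := mul_le_mul_of_nonneg_right hU hL0.le
  have t3 : (A + GG) ^ 2 / (2 * s) ^ 2 ≤ 1 := by
    rw [div_le_one (by positivity)]
    apply pow_le_pow_left₀ (by linarith only [hA0, hG0]); linarith only [hAs, hG]
  have hS1 : 1 ≤ S := by linarith only [hS20, hL2]
  have t4 : Y / 2 ≤ 2 * (A + GG) * (A + T) * lm := by
    have e : (A ^ 2 + U) * L = Y / 4 + U * L := by rw [← t1]; ring
    rw [e, t0] at hmain
    linarith only [hmain, t2, t3, hSLY, hSSL, hS1]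
  have t5 : 2 * (A + GG) * (A + T) * lm ≤ 2 * (2 * s) * (2 * (s * s)) * lm := by
    apply mul_le_mul_of_nonneg_right _ hlm
    have e1 : A + T ≤ 2 * (s * s) := by linarith only [hAs, hss, hT]
    have e2 : 2 * (A + GG) ≤ 2 * (2 * s) := by linarith only [hAs, hG]
    calc 2 * (A + GG) * (A + T) ≤ 2 * (A + GG) * (2 * (s * s)) :=
          mul_le_mul_of_nonneg_left e1 (by linarith only [hA0, hG0])
      _ ≤ 2 * (2 * s) * (2 * (s * s)) := mul_le_mul_of_nonneg_right e2 (by positivity)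
  have t6 : s / 16 ≤ S ^ 2 := by
    have : (r / 4) ^ 2 ≤ S ^ 2 := pow_le_pow_left₀ (by linarith only [hr80]) hS 2
    calc s / 16 = (r / 4) ^ 2 := by rw [← hr2]; ring
      _ ≤ S ^ 2 := this
  have t7 : s / 16 / L ≤ Y := by rw [hY]; exact div_le_div_of_nonneg_right t6 hL0.le
  have t8 : s / 16 / L ≤ 16 * (s * (s * s)) * lm := by
    have e : 2 * (2 * s) * (2 * (s * s)) * lm = (16 * (s * (s * s)) * lm) / 2 := by ring
    linarith only [t4, t5, t7, e]
  rw [div_le_iff₀ (by positivity)]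
  rw [div_div, div_le_iff₀ (by positivity)] at t8
  have t9 : s * 1 ≤ s * (lm * (256 * L * s ^ 2)) := by
    calc s * 1 = s := by ring
      _ ≤ 16 * (s * (s * s)) * lm * (16 * L) := t8
      _ = s * (lm * (256 * L * s ^ 2)) := by ring
  exact le_of_mul_le_mul_left t9 hs0

lemma exists_C2 (Y0 : ℕ) : ∃ C : ℝ, (Y0:ℝ) ≤ C ∧ 6400 * (5 + Real.log (C + 1)) ^ 4 ≤ C ∧ 1 ≤ C := by
  set y : ℝ := Y0 + 100 with hy
  have hY : (0:ℝ) ≤ Y0 := Nat.cast_nonneg _
  have hy1 : 100 ≤ y := by linarith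
  have h1 : Real.log (y ^ 8 - 1 + 1) ≤ 8 * y := by
    rw [sub_add_cancel, Real.log_pow]
    have := Real.log_le_sub_one_of_pos (show 0 < y by linarith)
    push_cast
    linarith
  have h0 : 0 ≤ Real.log (y ^ 8 - 1 + 1) := by
    rw [sub_add_cancel]
    exact Real.log_nonneg (one_le_pow₀ (by linarith))
  have hy4 : (100:ℝ) ^ 4 ≤ y ^ 4 := pow_le_pow_left₀ (by norm_num) hy1 4
  have hy7 : (1:ℝ) ≤ y ^ 7 := one_le_pow₀ (by linarith)
  have hy8 : y ^ 8 = y ^ 4 * y ^ 4 := by ring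
  have hy8' : y ^ 8 = y * y ^ 7 := by ring
  have hy48 : 100000000 * y ^ 4 ≤ y ^ 8 := by
    rw [hy8]
    have : (0:ℝ) ≤ y ^ 4 := by positivity
    nlinarith
  refine ⟨y ^ 8 - 1, ?_, ?_, ?_⟩
  · have : y * 1 ≤ y * y ^ 7 := mul_le_mul_of_nonneg_left hy7 (by linarith)
    linarith
  · have h2 : 5 + Real.log (y ^ 8 - 1 + 1) ≤ 9 * y := by linarith
    calc 6400 * (5 + Real.log (y ^ 8 - 1 + 1)) ^ 4 ≤ 6400 * (9 * y) ^ 4 := by gcongr
      _ = 41990400 * y ^ 4 := by ring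
      _ ≤ y ^ 8 - 1 := by nlinarith
  · nlinarith

/-- the lower bound -/
theorem all_field : ∃ c : ℝ, 0 < c ∧ c ≤ 1 ∧ ∀ (K : Type) [Field K] [NumberField K] (α : K),
    IsIntegral ℤ α → α ≠ 0 → (∀ n : ℕ, 0 < n → α ^ n ≠ 1) → CInj α → NL α = 0 →
    ∀ δ : ℝ, 0 < δ → δ ≤ 1 →
    finrank ℚ K * Real.log (δ * finrank ℚ K) ≤ NL (aeval α (derivative (minpoly ℤ α))) →
    c / (Real.log (16 / δ)) ^ 9 ≤ lam α := by
  classical
  obtain ⟨Y0, hY01, hY0⟩ := exists_Y0
  obtain ⟨C, hCY, hC, hC1⟩ := exists_C2 Y0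
  have hl2 := Real.log_two_lt_d9
  have hl2' := Real.log_two_gt_d9
  have hlC : 0 ≤ Real.log (C + 1) := Real.log_nonneg (by linarith)
  set kap := 5 + Real.log (C + 1) with hkap
  have hkap5 : 5 ≤ kap := by linarith
  refine ⟨1 / (256 * kap * (C + 1) ^ 2), by positivity, ?_, ?_⟩
  · rw [div_le_one (by positivity)]
    have : 1 ≤ (C + 1) ^ 2 := one_le_pow₀ (by linarith)
    nlinarith
  intro K _ _ α hα h0 hroot hcinj hunit δ hδ0 hδ1 hD
  set l := Real.log (16 / δ) with hl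
  have hl16 : Real.log 16 = 4 * Real.log 2 := by
    have : (16:ℝ) = 2 ^ 4 := by norm_num
    rw [this, Real.log_pow]; norm_num
  have hl' : l = 4 * Real.log 2 - Real.log δ := by
    rw [hl, Real.log_div (by norm_num) hδ0.ne', hl16]
  have hlδ : Real.log δ ≤ 0 := Real.log_nonpos hδ0.le hδ1
  have hl2a : 2 ≤ l := by linarith
  have hl0 : 0 < l := by linarith
  have hl4 : (16:ℝ) ≤ l ^ 4 := by
    have : (2:ℝ) ^ 4 ≤ l ^ 4 := pow_le_pow_left₀ (by norm_num) hl2a 4
    linarith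
  set s : ℕ := ⌈C * l ^ 4⌉₊ with hs
  have hs1 : C * l ^ 4 ≤ s := Nat.le_ceil _
  have hs2 : (s:ℝ) ≤ C * l ^ 4 + 1 := (Nat.ceil_lt_add_one (by positivity)).le
  have hC16 : C * 16 ≤ C * l ^ 4 := mul_le_mul_of_nonneg_left hl4 (by linarith)
  have hsY : Y0 ≤ s := by
    have : (Y0:ℝ) ≤ s := by linarith
    exact_mod_cast this
  have hs16 : (16:ℝ) ≤ s := by linarith
  have hs2' : 2 ≤ s := by
    have : (2:ℝ) ≤ s := by linarith
    exact_mod_cast this
  have hs0 : (0:ℝ) < s := by linarith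
  set r := Real.sqrt s with hr
  have hr2 : r ^ 2 = s := Real.sq_sqrt hs0.le
  have hr0 : 0 < r := Real.sqrt_pos.mpr hs0
  -- exponents
  have hex : ∀ p : ℕ, ∃ j : ℕ, (p.Prime ∧ p ≠ 2) → 1 / Real.sqrt p ≤
      (rr (α ^ (p ^ j)) : ℝ) ^ 2 / (p ^ j * rr (α ^ (p ^ (j + 1)))) := by
    intro p
    by_cases h : p.Prime ∧ p ≠ 2
    · obtain ⟨j, hj⟩ := exists_exp h0 hcinj h.1 h.2
      exact ⟨j, fun _ => hj⟩
    · exact ⟨0, fun h' => absurd h' h⟩
  choose jj hjj using hex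
  set m : ℕ → ℕ := fun p => p ^ jj p with hm
  set P := PP 2 s with hP
  have hPp : ∀ p ∈ P, p.Prime := fun p hp => (mem_PP.mp hp).2
  have hPs : ∀ p ∈ P, p ≤ s := fun p hp => (mem_PP.mp hp).1.2
  have hP3 : ∀ p ∈ P, 3 ≤ p := fun p hp => (mem_PP.mp hp).1.1
  set u : ℕ → ℝ := fun p => (rr (α ^ m p) : ℝ) ^ 2 / (m p * rr (α ^ (p * m p))) with hu
  set G : ℕ → ℝ := fun p => (rr (α ^ m p) : ℝ) / rr (α ^ (p * m p)) with hG
  have hR0 : ∀ k : ℕ, (0:ℝ) < rr (α ^ k) := fun k => by exact_mod_cast rr_pos (α ^ k)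
  have hm0 : ∀ p ∈ P, 0 < m p := fun p hp => Nat.pow_pos (hPp p hp).pos
  have hm0r : ∀ p ∈ P, (0:ℝ) < m p := fun p hp => by exact_mod_cast hm0 p hp
  have hRR : ∀ p ∈ P, (rr (α ^ m p) : ℝ) ≤ rr (α ^ (p * m p)) := by
    intro p _
    have h := rr_dvd_pow (α ^ m p) p
    rw [← pow_mul, mul_comm] at h
    exact_mod_cast h
  have hRm : ∀ p ∈ P, (rr (α ^ m p) : ℝ) ≤ m p := by
    intro p hp
    exact_mod_cast rr_le hcinj (hm0 p hp)
  have hu0 : ∀ p ∈ P, 0 ≤ u p := fun p hp => by rw [hu]; positivity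
  have hG0 : ∀ p ∈ P, 0 ≤ G p := fun p hp => by rw [hG]; positivity
  have hG1 : ∀ p ∈ P, G p ≤ 1 := by
    intro p hp
    rw [hG]; dsimp only
    rw [div_le_one (hR0 _)]
    exact hRR p hp
  have hu1 : ∀ p ∈ P, u p ≤ 1 := by
    intro p hp
    have h1 := hm0r p hp
    rw [hu]; dsimp only
    rw [div_le_one (mul_pos h1 (hR0 _)), pow_two]
    exact mul_le_mul (hRm p hp) (hRR p hp) (hR0 _).le h1.le
  have hup : ∀ p ∈ P, 1 / r ≤ u p := by
    intro p hp
    have h1 := hjj p ⟨hPp p hp, by have := hP3 p hp; omega⟩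
    have h2 : 1 / r ≤ 1 / Real.sqrt p := by
      apply one_div_le_one_div_of_le
      · apply Real.sqrt_pos.mpr; exact_mod_cast (hPp p hp).pos
      · apply Real.sqrt_le_sqrt; exact_mod_cast hPs p hp
    refine h2.trans (h1.trans (le_of_eq ?_))
    rw [hu]; dsimp only
    rw [hm]; dsimp only
    rw [show p ^ (jj p + 1) = p * p ^ jj p by ring]
    push_cast
    ring
  have hlog1 : ∀ p ∈ P, 1 ≤ Real.log p := by
    intro p hp
    have h3 : (3:ℝ) ≤ p := by exact_mod_cast hP3 p hp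
    rw [Real.le_log_iff_exp_le (by linarith)]
    have := Real.exp_one_lt_d9
    linarith
  have hth : (s:ℝ) / 4 ≤ ∑ p ∈ P, Real.log p := by
    have h1 := theta_half hY0 s hsY (by omega)
    rw [theta_eq, sum_PP_union (a := 0) (b := 2) (c := s) (by omega) hs2'] at h1
    have h2 : ∑ p ∈ PP 0 2, Real.log p ≤ Real.log 2 := by
      have h3 := theta_eq 2
      have h4 : ∑ p ∈ PP 0 2, Real.log (p:ℝ) ≤ ∑ p ∈ ({2} : Finset ℕ), Real.log (p:ℝ) := by
        apply Finset.sum_le_sum_of_subset_of_nonneg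
        · intro p hp
          rw [mem_PP] at hp
          rw [Finset.mem_singleton]
          have := hp.2.two_le
          omega
        · intro p _ _
          exact Real.log_natCast_nonneg p
      simpa using h4
    linarith
  have hS : r / 4 ≤ ∑ p ∈ P, u p * Real.log p := by
    have h1 : 1 / r * ∑ p ∈ P, Real.log p ≤ ∑ p ∈ P, u p * Real.log p := by
      rw [Finset.mul_sum]
      refine Finset.sum_le_sum fun p hp => ?_
      exact mul_le_mul_of_nonneg_right (hup p hp) (by linarith [hlog1 p hp])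
    have h2 : 1 / r * (s / 4) ≤ 1 / r * ∑ p ∈ P, Real.log p :=
      mul_le_mul_of_nonneg_left hth (by positivity)
    have h3 : 1 / r * ((s:ℝ) / 4) = r / 4 := by rw [← hr2]; field_simp
    linarith
  have hS2 : ∑ p ∈ P, u p * Real.log p ≤ 2 * s := by
    have h1 : ∑ p ∈ P, u p * Real.log p ≤ ∑ p ∈ P, Real.log p := by
      refine Finset.sum_le_sum fun p hp => ?_
      have := mul_le_mul_of_nonneg_right (hu1 p hp) (by linarith [hlog1 p hp] : 0 ≤ Real.log p)
      linarith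
    have h2 : ∑ p ∈ P, Real.log p ≤ Chebyshev.theta s := by
      rw [theta_eq, sum_PP_union (a := 0) (b := 2) (c := s) (by omega) hs2']
      have : 0 ≤ ∑ p ∈ PP 0 2, Real.log p := Finset.sum_nonneg fun p _ => Real.log_natCast_nonneg p
      linarith
    have h3 := Chebyshev.theta_le_log4_mul_x (x := (s:ℝ)) hs0.le
    have h4 : Real.log 4 ≤ 2 := by
      have : (4:ℝ) = 2 ^ 2 := by norm_num
      rw [this, Real.log_pow]; push_cast; linarith
    nlinarith
  have hU0 : 0 ≤ ∑ p ∈ P, u p := Finset.sum_nonneg hu0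
  have hU : ∑ p ∈ P, u p ≤ ∑ p ∈ P, u p * Real.log p := by
    refine Finset.sum_le_sum fun p hp => ?_
    have := mul_le_mul_of_nonneg_left (hlog1 p hp) (hu0 p hp)
    linarith
  have hcardP : (P.card : ℝ) ≤ s := by
    have h1 : P.card ≤ (Finset.Ioc 2 s).card := Finset.card_le_card (Finset.filter_subset _ _)
    rw [Nat.card_Ioc] at h1
    exact_mod_cast (by omega : P.card ≤ s)
  have hGG0 : 0 ≤ ∑ p ∈ P, G p := Finset.sum_nonneg hG0
  have hGG : ∑ p ∈ P, G p ≤ s := by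
    calc ∑ p ∈ P, G p ≤ P.card • (1:ℝ) := Finset.sum_le_card_nsmul _ _ _ hG1
      _ = P.card := by rw [nsmul_eq_mul, mul_one]
      _ ≤ s := hcardP
  have hT : ∑ p ∈ P, G p * (p:ℝ) ≤ s * s := by
    calc ∑ p ∈ P, G p * (p:ℝ) ≤ P.card • (s:ℝ) := by
          apply Finset.sum_le_card_nsmul
          intro p hp
          have h1 : (p:ℝ) ≤ s := by exact_mod_cast hPs p hp
          have h2 := mul_le_mul (hG1 p hp) h1 (Nat.cast_nonneg p) zero_le_one
          linarith
      _ = P.card * s := by rw [nsmul_eq_mul]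
      _ ≤ s * s := mul_le_mul_of_nonneg_right hcardP hs0.le
  have hLe : Real.log ((2 * (s:ℝ)) ^ 2 / δ) = 2 * Real.log 2 + 2 * Real.log s - Real.log δ := by
    rw [Real.log_div (by positivity) hδ0.ne', Real.log_pow, Real.log_mul (by norm_num) hs0.ne']
    push_cast; ring
  set L := Real.log ((2 * (s:ℝ)) ^ 2 / δ) with hLdef
  have hlogs : 0 ≤ Real.log s := Real.log_natCast_nonneg s
  have hlogs2 : Real.log 2 ≤ Real.log s := Real.log_le_log (by norm_num) (by linarith)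
  have hL1 : 1 ≤ L := by rw [hLe]; linarith
  have hsup : (s:ℝ) ≤ (C + 1) * l ^ 4 := by linarith
  have hlogl : Real.log l ≤ l / 2 := by
    have := Real.log_le_sub_one_of_pos (show 0 < l / 2 by linarith)
    rw [Real.log_div (by linarith) (by norm_num)] at this
    linarith
  have hlogsup : Real.log s ≤ Real.log (C + 1) + 4 * Real.log l := by
    have h1 := Real.log_le_log hs0 hsup
    rw [Real.log_mul (by positivity) (by positivity), Real.log_pow] at h1
    push_cast at h1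
    exact h1
  have hLk : L ≤ kap * l := by
    have h1 : 2 * Real.log (C + 1) ≤ l * Real.log (C + 1) := mul_le_mul_of_nonneg_right hl2a hlC
    have h2 : kap * l = 5 * l + l * Real.log (C + 1) := by rw [hkap]; ring
    rw [h2, hLe]
    linarith
  have hr80 : 80 * L ^ 2 ≤ r := by
    have h1 : (80 * (kap * l) ^ 2) ^ 2 ≤ r ^ 2 := by
      rw [hr2]
      refine le_trans ?_ hs1
      have h2 := mul_le_mul_of_nonneg_right hC (by positivity : 0 ≤ l ^ 4)
      calc (80 * (kap * l) ^ 2) ^ 2 = 6400 * kap ^ 4 * l ^ 4 := by ring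
        _ ≤ C * l ^ 4 := h2
    have h3 : 80 * (kap * l) ^ 2 ≤ r := le_of_sq_le_sq h1 hr0.le
    have h4 : L ^ 2 ≤ (kap * l) ^ 2 := pow_le_pow_left₀ (by linarith) hLk 2
    linarith
  have hmain := fam_ineq hα h0 hroot hcinj hunit P hPp m (fun p _ => ⟨jj p, rfl⟩) u G
    (fun p _ => rfl) (fun p _ => rfl) (A := (∑ p ∈ P, u p * Real.log p) / (2 * L))
    (div_nonneg (by linarith) (by linarith)) (n := (2 * (s:ℝ)) ^ 2) (by nlinarith) hδ0 hD
  have h := real_all hr2 hr80 hL1 hS hS2 hU0 hU hGG0 hGG hT (lam_nonneg α) hmain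
  refine le_trans ?_ h
  rw [div_div]
  apply one_div_le_one_div_of_le (by positivity)
  have e1 : (s:ℝ) ^ 2 ≤ ((C + 1) * l ^ 4) ^ 2 := pow_le_pow_left₀ hs0.le hsup 2
  calc 256 * L * (s:ℝ) ^ 2 ≤ 256 * (kap * l) * ((C + 1) * l ^ 4) ^ 2 := by
        apply mul_le_mul _ e1 (by positivity) (by positivity)
        linarith
    _ = 256 * kap * (C + 1) ^ 2 * l ^ 9 := by ring

end Pool.Agent.W666.DM
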