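import Mathlib
import Pool.Agent.W666.DL.Poly
import Pool.Agent.W666.DM.Main2

/-!
# Lehmer's problem for polynomials of large discriminant, all irreducible polynomials
-/

set_option autoImplicit false

open Polynomial Module

namespace Pool.Agent.W666.DM

open Pool.Agent.H388SL Pool.Agent.W666.DL

lemma log16_ge_one {δ : ℝ} (h0 : 0 < δ) (h1 : δ ≤ 1) : 1 ≤ Real.log (16 / δ) := by
  have hl2' := Real.log_two_gt_d9
  have hl16 : Real.log 16 = 4 * Real.log 2 := by
    have : (16:ℝ) = 2 ^ 4 := by norm_num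
    rw [this, Real.log_pow]; norm_num
  have h2 : Real.log 16 ≤ Real.log (16 / δ) := by
    apply Real.log_le_log (by norm_num)
    rw [le_div_iff₀ h0]; linarith
  linarith

/-- from number fields to polynomials, for any bound `F δ ≤ 1` -/
lemma poly_of_field {c : ℝ} {F : ℝ → ℝ} (hF1 : ∀ δ : ℝ, 0 < δ → δ ≤ 1 → c * F δ ≤ 1)
    (h1 : ∀ (K : Type) [Field K] [NumberField K] (α : K),
      IsIntegral ℤ α → α ≠ 0 → (∀ n : ℕ, 0 < n → α ^ n ≠ 1) → CInj α → NL α = 0 →
      ∀ δ : ℝ, 0 < δ → δ ≤ 1 →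
      finrank ℚ K * Real.log (δ * finrank ℚ K) ≤ NL (aeval α (derivative (minpoly ℤ α))) →
      c * F δ ≤ lam α)
    (f : ℤ[X]) (δ : ℝ) (hf : Irreducible f) (hM : 1 < MM f)
    (hδ0 : 0 < δ) (hδ1 : δ ≤ 1) (hD : (δ * f.natDegree) ^ f.natDegree ≤ |(f.discr : ℝ)|) :
    1 + c * F δ ≤ MM f := by
  have hbig : 2 ≤ MM f → 1 + c * F δ ≤ MM f := by
    intro h
    have := hF1 δ hδ0 hδ1
    linarith
  have hmonic : ∀ p : ℤ[X], Irreducible p → p.Monic → |p.coeff 0| = 1 → 1 < MM p →
      (δ * p.natDegree) ^ p.natDegree ≤ |(p.discr : ℝ)| → 1 + c * F δ ≤ MM p := by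
    intro p hp hm hc0 hM hD
    obtain ⟨K, iF, iN, α, hα, h0, hroot, hc, hunit, hfr, hMM, hdisc, hpα⟩ :=
      to_field p hp hm (by exact_mod_cast hc0) hM
    have hd0 : (0:ℝ) < p.natDegree := by
      rw [← hfr]; exact_mod_cast (finrank_pos : 0 < finrank ℚ K)
    have hD' : finrank ℚ K * Real.log (δ * finrank ℚ K) ≤
        NL (aeval α (derivative (minpoly ℤ α))) := by
      rw [hdisc, hfr, ← Real.log_pow]
      exact Real.log_le_log (by positivity) hD
    have hexp : Real.exp (lam α) = MM p := by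
      rw [← hMM, Real.exp_log (by linarith)]
    have h2 := h1 K α hα h0 hroot hc hunit δ hδ0 hδ1 hD'
    have h3 := Real.add_one_le_exp (c * F δ)
    have h4 := Real.exp_le_exp.mpr h2
    linarith
  by_cases hlc : |f.leadingCoeff| = 1
  · by_cases hcc : |f.coeff 0| = 1
    · rcases (abs_eq (by norm_num : (0:ℤ) ≤ 1)).mp hlc with h | h
      · exact hmonic f hf h hcc hM hD
      · have hdeg : 0 < f.degree := by
          rw [← natDegree_pos_iff_degree_pos]
          rcases Nat.eq_zero_or_pos f.natDegree with h0 | h0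
          · exfalso
            rw [eq_C_of_natDegree_eq_zero h0] at hM hcc
            rw [MM, Polynomial.map_C, mahlerMeasure_const] at hM
            rw [coeff_C_zero] at hcc
            have h3 : ‖(Int.castRingHom ℂ) (f.coeff 0)‖ = 1 := by
              rw [eq_intCast, Complex.norm_intCast]
              exact_mod_cast hcc
            rw [h3] at hM
            exact lt_irrefl _ hM
          · exact h0
        have h3 := hmonic (-f) (by simpa using (irreducible_units_mul (-1 : ℤ[X]ˣ)).mpr hf) (by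
            rw [Monic, leadingCoeff_neg, h]; norm_num) (by rw [coeff_neg, abs_neg]; exact hcc)
            (by rwa [MM_neg]) (by
              rw [natDegree_neg]
              refine hD.trans (le_of_eq ?_)
              have := abs_discr_neg f hdeg
              exact_mod_cast this.symm)
        rw [MM_neg] at h3
        exact h3
    · by_cases h0 : f.coeff 0 = 0
      · exfalso
        obtain ⟨u, hu⟩ := X_dvd_iff.mpr h0
        have h3 : IsUnit u := by
          rcases hf.isUnit_or_isUnit hu with h | h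
          · exact absurd h not_isUnit_X
          · exact h
        rw [hu, MM_mul, MM_unit h3, mul_one, MM, Polynomial.map_X] at hM
        have h4 : (X : ℂ[X]).mahlerMeasure = 1 := by
          have := mahlerMeasure_X_sub_C 0
          rw [C_0, sub_zero] at this
          rw [this]; simp
        rw [h4] at hM
        exact lt_irrefl _ hM
      · apply hbig
        have h1 : 1 ≤ |f.coeff 0| := Int.one_le_abs h0
        have h2 : 2 ≤ |f.coeff 0| := by omega
        have h3 := coeff_zero_le_MM f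
        have h4 : (2:ℝ) ≤ |(f.coeff 0 : ℝ)| := by exact_mod_cast h2
        linarith
  · apply hbig
    have h1 : 1 ≤ |f.leadingCoeff| := Int.one_le_abs (leadingCoeff_ne_zero.mpr hf.ne_zero)
    have h2 : 2 ≤ |f.leadingCoeff| := by omega
    have h3 := leadingCoeff_le_MM f
    have h4 : (2:ℝ) ≤ |(f.leadingCoeff : ℝ)| := by exact_mod_cast h2
    linarith

theorem final9 : ∃ c : ℝ, 0 < c ∧ ∀ (f : ℤ[X]) (δ : ℝ), Irreducible f → 1 < MM f →
    0 < δ → δ ≤ 1 → (δ * f.natDegree) ^ f.natDegree ≤ |(f.discr : ℝ)| →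
    1 + c / (Real.log (16 / δ)) ^ 9 ≤ MM f := by
  obtain ⟨c, hc, hc', h1⟩ := all_field
  refine ⟨c, hc, ?_⟩
  intro f δ hf hM hδ0 hδ1 hD
  have h2 := poly_of_field (c := c) (F := fun δ => 1 / (Real.log (16 / δ)) ^ 9) (by
    intro δ h0 h1
    have h3 := log16_ge_one h0 h1
    have h4 : 1 ≤ (Real.log (16 / δ)) ^ 9 := one_le_pow₀ h3
    have h5 : 1 / (Real.log (16 / δ)) ^ 9 ≤ 1 := by
      rw [div_le_one (by linarith)]; exact h4
    have h6 : 0 ≤ 1 / (Real.log (16 / δ)) ^ 9 := by positivity
    show c * (1 / (Real.log (16 / δ)) ^ 9) ≤ 1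
    nlinarith) (by
    intro K _ _ α hα h0 hroot hc hunit δ hδ0 hδ1 hD
    have := h1 K α hα h0 hroot hc hunit δ hδ0 hδ1 hD
    show c * (1 / (Real.log (16 / δ)) ^ 9) ≤ lam α
    rwa [mul_one_div]) f δ hf hM hδ0 hδ1 hD
  have h3 : c * (1 / (Real.log (16 / δ)) ^ 9) = c / (Real.log (16 / δ)) ^ 9 := mul_one_div _ _
  simp only [h3] at h2
  exact h2

end Pool.Agent.W666.DM
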